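import Pool.Agent.U195.CISVT

set_option autoImplicit false

/-!
# MP_3eb3c1_co: vertex-transitive CIS graphs with clique number four and large chromatic number

The definitions `IsCIS` and `IsVertexTransitive` are in `Pool.Agent.U195.CISVT`.

Construction. Let `G` be a triangle-free edge-transitive graph. The vertices of `Γ` are the edges
of `G` with a label `0` or `1` at both of their ends; two of them are adjacent when they have
different labels at a common vertex of `G`. The maximal stable sets of `Γ` are the restrictions of
the labellings of `V(G)`, every maximal clique of `Γ` has four elements and meets all of them.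
Permuting edges and flipping labels shows that `Γ` is vertex-transitive. A proper colouring of `Γ`
with `m` colours gives a proper colouring of `G` with `2 ^ m` colours. For `G` we take the graph on
the triples of distinct elements of an `N`-element set in which `(a, b, c)` and `(b, c, d)` are
adjacent for distinct `a, b, c, d`; its chromatic number tends to infinity with `N`.
-/

namespace Pool.Agent.Results.MP_3eb3c1_co.ChromaticUnbounded

open Pool.Agent.U195.CISVT

/-- (1) There is a finite vertex-transitive CIS graph whose chromatic number is larger than its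
clique number. (2) For every `m` there is a finite vertex-transitive CIS graph with clique number
`4` and chromatic number larger than `m`. -/
theorem result :
    (∃ (V : Type) (_ : Fintype V) (Γ : SimpleGraph V),
      IsVertexTransitive Γ ∧ IsCIS Γ ∧ (Γ.cliqueNum : ℕ∞) < Γ.chromaticNumber) ∧
    ∀ m : ℕ, ∃ (V : Type) (_ : Fintype V) (Γ : SimpleGraph V),
      IsVertexTransitive Γ ∧ IsCIS Γ ∧ Γ.cliqueNum = 4 ∧ (m : ℕ∞) < Γ.chromaticNumber := by
  have key : ∀ m : ℕ, ∃ (V : Type) (_ : Fintype V) (Γ : SimpleGraph V),
      IsVertexTransitive Γ ∧ IsCIS Γ ∧ Γ.cliqueNum = 4 ∧ (m : ℕ∞) < Γ.chromaticNumber := by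
    intro m
    obtain ⟨V, hV, Γ, h1, h2, h3, h4⟩ := main m
    exact ⟨V, hV, Γ, h1, h2, h3,
      not_le.1 fun h => h4 (SimpleGraph.chromaticNumber_le_iff_colorable.1 h)⟩
  refine ⟨?_, key⟩
  obtain ⟨V, hV, Γ, h1, h2, h3, h4⟩ := key 4
  exact ⟨V, hV, Γ, h1, h2, by rw [h3]; exact h4⟩

end Pool.Agent.Results.MP_3eb3c1_co.ChromaticUnbounded
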